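import Pool.Agent.helper31.GPR.Spec

set_option autoImplicit false

namespace Pool.Agent.GPR

open Pool.Agent.helper25.QST

theorem SUB_lc {V : Type} [AddCommGroup V] [Module (ZMod 2) V] {S T : Set V} {J : V → V →ₗ[ZMod 2] V}
    (h : Lc S J) (hT : T ⊆ S) : Lc T J where
  nz := fun h0 => h.nz (hT h0)
  self := fun x hx => h.self x (hT hx)
  quad := fun x hx v => h.quad x (hT hx) v
  sym := fun x hx y hy => h.sym x (hT hx) y (hT hy)
  ker := fun x hx y hy hxy e => h.ker x (hT hx) y (hT hy) hxy e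

theorem SUB_fin3 {V : Type} [AddCommGroup V] [Module (ZMod 2) V] (x y z : V) :
    Module.finrank (ZMod 2) (Submodule.span (ZMod 2) ({x, y, z} : Set V)) ≤ 3 := by
  classical
  have h := finrank_span_finset_le_card (R := ZMod 2) ({x, y, z} : Finset V)
  have h3 : ({x, y, z} : Finset V).card ≤ 3 := Finset.card_le_three
  have he : ((({x, y, z} : Finset V) : Set V)) = ({x, y, z} : Set V) := by
    simp
  unfold Set.finrank at h
  rw [he] at h
  exact le_trans h h3

theorem SUB (hFOU : FOU_stmt) (hDIC : DIC_stmt) : SUB_stmt := by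
  intro V _ _ _ n L S J hn hLc hLn hS hbig
  classical
  have hex : ∃ d, ∃ V' : Submodule (ZMod 2) V, Module.finrank (ZMod 2) V' = d ∧
      (S \ (V' : Set V)).ncard ≤ (n - d) * 2 ^ (L + 4) := by
    refine ⟨n, ⊤, ?_, ?_⟩
    · rw [finrank_top]; exact hn
    · simp
  obtain ⟨V1, hd, hV1⟩ := Nat.find_spec hex
  have hmin := fun m (hm : m < Nat.find hex) => Nat.find_min hex hm
  generalize Nat.find hex = d at hd hV1 hmin
  have hdn : d ≤ n := by
    rw [← hd, ← hn]; exact Submodule.finrank_le V1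
  have hsub : ∀ x ∈ S ∩ (V1 : Set V), ∀ y ∈ S ∩ (V1 : Set V), ∀ z ∈ S ∩ (V1 : Set V),
      x + y + z ∈ S ∩ (V1 : Set V) → ∃ e : ZMod 2, ∀ v ∈ V1,
      (J x + J y + J z + J (x + y + z)) v + e • v ∈ Submodule.span (ZMod 2) {x, y, z} := by
    intro x hx y hy z hz hxyz
    obtain ⟨e, he⟩ := hDIC V n L S (J x + J y + J z + J (x + y + z))
      (Submodule.span (ZMod 2) {x, y, z}) hn (SUB_fin3 x y z) hLn hS
      (fun w hw => hFOU V S J hLc x hx.1 y hy.1 z hz.1 hxyz.1 w hw)
    refine ⟨e, ?_⟩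
    let E : Submodule (ZMod 2) V := (Submodule.span (ZMod 2) {x, y, z}).comap
      ((J x + J y + J z + J (x + y + z)) + e • (LinearMap.id : V →ₗ[ZMod 2] V))
    have hE : ∀ v, v ∈ E ↔ (J x + J y + J z + J (x + y + z)) v + e • v ∈
        Submodule.span (ZMod 2) {x, y, z} := by
      intro v
      simp [E, Submodule.mem_comap]
    by_contra hcon
    have hnle : ¬ V1 ≤ E := by
      intro hle
      apply hcon
      intro v hv
      exact (hE v).1 (hle hv)
    have hlt : V1 ⊓ E < V1 := by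
      refine lt_of_le_of_ne inf_le_left ?_
      intro heq
      exact hnle (inf_eq_left.1 heq)
    have hfr : Module.finrank (ZMod 2) (V1 ⊓ E : Submodule (ZMod 2) V) < d := by
      rw [← hd]; exact Submodule.finrank_lt_finrank_of_lt hlt
    apply hmin _ hfr
    refine ⟨V1 ⊓ E, rfl, ?_⟩
    have hsubset : S \ ((V1 ⊓ E : Submodule (ZMod 2) V) : Set V) ⊆
        (S \ (V1 : Set V)) ∪ (S \ {v | (J x + J y + J z + J (x + y + z)) v + e • v ∈
          Submodule.span (ZMod 2) {x, y, z}}) := by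
      intro w hw
      by_cases hwV : w ∈ (V1 : Set V)
      · right
        refine ⟨hw.1, ?_⟩
        intro hwE
        apply hw.2
        exact ⟨hwV, (hE w).2 hwE⟩
      · left; exact ⟨hw.1, hwV⟩
    have hfin : (S \ (V1 : Set V) ∪ (S \ {v | (J x + J y + J z + J (x + y + z)) v + e • v ∈
          Submodule.span (ZMod 2) {x, y, z}})).Finite := Set.toFinite _
    have h1 := Set.ncard_le_ncard hsubset hfin
    have h2 := Set.ncard_union_le (S \ (V1 : Set V)) (S \ {v | (J x + J y + J z + J (x + y + z)) v + e • v ∈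
          Submodule.span (ZMod 2) {x, y, z}})
    have h3 : (n - d) * 2 ^ (L + 4) + 2 ^ (L + 4) ≤
        (n - Module.finrank (ZMod 2) (V1 ⊓ E : Submodule (ZMod 2) V)) * 2 ^ (L + 4) := by
      have : (n - d) * 2 ^ (L + 4) + 2 ^ (L + 4) = (n - d + 1) * 2 ^ (L + 4) := by ring
      rw [this]
      apply Nat.mul_le_mul_right
      omega
    omega
  have hsum := Set.ncard_inter_add_ncard_sdiff_eq_ncard S (V1 : Set V) (Set.toFinite S)
  have hc1 : (S \ (V1 : Set V)).ncard ≤ n * 2 ^ (L + 4) := by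
    refine le_trans hV1 ?_
    apply Nat.mul_le_mul_right
    omega
  have hc2 : n * 2 ^ (L + 4) ≤ 2 ^ (n - L - 1) := by
    have h1 : n * 2 ^ (2 * L + 5) = (n * 2 ^ (L + 4)) * 2 ^ (L + 1) := by
      rw [mul_assoc, ← pow_add]
      congr 2
      omega
    have h2 : 2 ^ n = 2 ^ (n - L - 1) * 2 ^ (L + 1) := by
      rw [← pow_add]
      congr 1
      omega
    rw [h1, h2] at hbig
    exact Nat.le_of_mul_le_mul_right hbig (by positivity)
  have hc3 : 2 ^ (n - L) = 2 * 2 ^ (n - L - 1) := by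
    rw [← pow_succ']
    congr 1
    omega
  have hc4 : 2 ^ (n - L - 1) ≤ (S ∩ (V1 : Set V)).ncard := by omega
  refine ⟨V1, ⟨SUB_lc hLc Set.inter_subset_left, fun x hx => hx.2, hsub⟩, hc4, ?_⟩
  have hc5 : (S ∩ (V1 : Set V)).ncard ≤ (V1 : Set V).ncard :=
    Set.ncard_le_ncard Set.inter_subset_right (Set.toFinite _)
  have hc6 : (V1 : Set V).ncard = 2 ^ d := by
    have h := Module.natCard_eq_pow_finrank (K := ZMod 2) (V := V1)
    rw [Nat.card_zmod, hd] at h
    rw [← h]
    exact (Nat.card_coe_set_eq (V1 : Set V)).symm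
  rw [hc6] at hc5
  have hc7 : 2 ^ (n - L - 1) ≤ 2 ^ d := le_trans hc4 hc5
  have hc8 := (Nat.pow_le_pow_iff_right (by norm_num : 1 < 2)).1 hc7
  omega

end Pool.Agent.GPR
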